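import Mathlib

set_option autoImplicit false
open Set Topology Filter Function

namespace Pool.Agent.H.MP_8ab655_gt

abbrev T := AddCircle (1:ℝ)

lemma pot {V : Type} {G : SimpleGraph V} (h : G.IsTree) (c : V → V → ℤ) :
    ∃ m : V → ℤ, ∀ v w, G.Adj v w → m w - m v = c v w ∨ m v - m w = c w v := by
  classical
  obtain ⟨r⟩ := h.connected.nonempty
  choose p hp using h.connected.exists_isPath r
  have k : ∀ v w, G.Adj v w → v ∈ (p w).support →
      ((p w).darts.map fun d => c d.fst d.snd).sum - ((p v).darts.map fun d => c d.fst d.snd).sum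
        = c v w := fun v w a k => by
    rw [h.isAcyclic.path_concat (hp v) (hp w) a k]; simp
  refine ⟨fun v => ((p v).darts.map fun d => c d.fst d.snd).sum, fun v w a => ?_⟩
  by_cases l : v ∈ (p w).support
  · exact Or.inl (k v w a l)
  · exact Or.inr (k w v a.symm
      (h.isAcyclic.mem_support_of_ne_mem_support_of_adj_of_isPath (hp v) (hp w) a l))

noncomputable def sec (u : T) : ℝ := (AddCircle.equivIoc 1 (-1/2) u : ℝ)

lemma sec_coe (u : T) : (sec u : T) = u := AddCircle.coe_equivIoc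

lemma sec_abs (u : T) : |sec u| = ‖u‖ := by
  have := (AddCircle.equivIoc 1 (-1/2 : ℝ) u).2
  conv_rhs => rw [← sec_coe u]
  refine ((AddCircle.norm_coe_eq_abs_iff 1 one_ne_zero).2 (abs_le.2 ⟨?_, ?_⟩)).symm <;>
    simp only [sec, abs_one] <;> linarith [this.1, this.2]

lemma sec_cont {u : T} (h : ‖u‖ < 1/4) : ContinuousAt sec u := by
  refine continuous_subtype_val.continuousAt.comp (AddCircle.continuousAt_equivIoc 1 _ ?_)
  rintro rfl
  rw [(AddCircle.norm_coe_eq_abs_iff 1 one_ne_zero).2 (by norm_num [abs_of_neg])] at h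
  norm_num [abs_of_neg] at h

lemma int0 (m : ℤ) : ((m : ℝ) : T) = 0 := (AddCircle.coe_eq_zero_iff (1:ℝ)).2 ⟨m, by simp⟩

def Lf (X : Type) [TopologicalSpace X] : Prop := ∀ (A : Set X) (φ : X → T), IsClosed A →
  ContinuousOn φ A → ∃ f : X → ℝ, Continuous f ∧ ∀ x ∈ A, (f x : T) = φ x

lemma lf {X : Type} [TopologicalSpace X] [NormalSpace X]
    (H : ∀ 𝒰 : Set (Set X), (∀ U ∈ 𝒰, IsOpen U) → ⋃₀ 𝒰 = Set.univ →
        ∃ (n : ℕ) (V : Fin n → Set X),
          (∀ i, IsOpen (V i)) ∧ (⋃ i, V i) = Set.univ ∧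
          (∀ i, ∃ U ∈ 𝒰, V i ⊆ U) ∧
          (∀ i j k, i ≠ j → j ≠ k → i ≠ k → V i ∩ V j ∩ V k = ∅) ∧
          (SimpleGraph.fromRel (fun i j : Fin n => (V i ∩ V j).Nonempty)).IsTree) : Lf X := by
  intro A φ hA hφ
  obtain ⟨n, V, v1, v2, v3, -, v5⟩ := H {U | IsOpen U ∧ ∃ τ : ℝ, ∀ x ∈ U ∩ A, ‖φ x - τ‖ < 1/4}
    (fun _ h => h.1) (eq_univ_of_forall fun x => by
      by_cases hx : x ∈ A
      · obtain ⟨u, u1, u2, u3⟩ := mem_nhdsWithin.1
          (hφ x hx (Metric.ball_mem_nhds (φ x) (by norm_num : (0:ℝ) < 1/4)))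
        exact ⟨u, ⟨u1, sec (φ x), fun y hy => by
          rw [sec_coe, ← dist_eq_norm]; exact u3 hy⟩, u2⟩
      · exact ⟨Aᶜ, ⟨hA.isOpen_compl, 0, fun y hy => (hy.1 hy.2).elim⟩, hx⟩)
  have : ∀ i, ∃ τ : ℝ, ∀ x ∈ V i ∩ A, ‖φ x - τ‖ < 1/4 := fun i =>
    let ⟨_, ⟨_, τ, a⟩, b⟩ := v3 i; ⟨τ, fun x hx => a x ⟨b hx.1, hx.2⟩⟩
  choose τ hτ using this
  obtain ⟨m, hm⟩ := pot v5 fun i j => round (τ i - τ j)
  let F : Fin n → X → ℝ := fun i x => τ i + sec (φ x - τ i) + m i
  have F1 : ∀ i x, (F i x : T) = φ x := fun i x => by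
    simp only [F, AddCircle.coe_add, sec_coe]
    rw [int0]; abel
  have F2 : ∀ i j x, x ∈ V i ∩ A → x ∈ V j ∩ A → m j - m i = round (τ i - τ j) → F i x = F j x :=
    fun i j x a b e => by
      obtain ⟨z, hz⟩ := (AddCircle.coe_eq_zero_iff (1:ℝ)).1
        (show ((F i x - F j x : ℝ) : T) = 0 by rw [AddCircle.coe_sub, F1, F1, sub_self])
      have a1 := abs_lt.1 (sec_abs _ ▸ hτ i x a)
      have a2 := abs_lt.1 (sec_abs _ ▸ hτ j x b)
      simp only [F, zsmul_eq_mul, mul_one] at hz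
      have : round (τ i - τ j) = z + (m j - m i) := round_eq_iff.2 (by
        push_cast; constructor <;> linarith [a1.1, a1.2, a2.1, a2.2])
      have : z = 0 := by omega
      simp only [F]; rw [this] at hz; push_cast at hz; linarith
  have F3 : ∀ i j x, x ∈ V i ∩ A → x ∈ V j ∩ A → F i x = F j x := fun i j x a b => by
    by_cases e : i = j
    · rw [e]
    · exact (hm i j ((SimpleGraph.fromRel_adj _ _ _).2 ⟨e, Or.inl ⟨x, a.1, b.1⟩⟩)).elim
        (F2 i j x a b) fun l => (F2 j i x b a l).symm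
  choose ι hι using fun x => mem_iUnion.1 (v2.symm.subset (mem_univ x))
  have c : ContinuousOn (fun x => F (ι x) x) A := continuousOn_of_locally_continuousOn fun x hx =>
    ⟨V (ι x), v1 _, hι x, ContinuousOn.congr (f := F (ι x)) (fun y hy =>
      ((continuousWithinAt_const.add ((sec_cont (hτ _ y ⟨hy.2, hy.1⟩)).comp_continuousWithinAt
        (f := fun x' => φ x' - τ (ι x))
        (((hφ y hy.1).mono inter_subset_left).sub continuousWithinAt_const))).add
        continuousWithinAt_const)) fun y hy => F3 _ _ y ⟨hι y, hy.1⟩ ⟨hy.2, hy.1⟩⟩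
  obtain ⟨g, hg⟩ := ContinuousMap.exists_restrict_eq hA ⟨_, c.restrict⟩
  exact ⟨g, g.2, fun x hx => by
    rw [show g x = F (ι x) x from congrFun (congrArg DFunLike.coe hg) ⟨x, hx⟩, F1]⟩

lemma cst {X : Type} [TopologicalSpace X] {K : Set X} (hK : IsPreconnected K) {F : X → ℝ}
    (c : Continuous F) {t : T} (h : ∀ x ∈ K, (F x : T) = t) {x y : X} (hx : x ∈ K) (hy : y ∈ K) :
    F x = F y :=
  (AddCircle.isCoveringMap_coe (1:ℝ)).constOn_of_comp hK c.continuousOn
    (fun a ha b hb => (h a ha).trans (h b hb).symm) hx hy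

end Pool.Agent.H.MP_8ab655_gt
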