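import Pool.Agent.H.MP_8ab655_gt.A
import Pool.Agent.H.MP_3ae40e_gt.A

set_option autoImplicit false
open Set Topology Filter Function
open Pool.Agent.H.MP_3ae40e_gt

namespace Pool.Agent.H.MP_8ab655_gt

def Per {X : Type} (g : X → X) : Prop := ∀ x, ∃ m : ℕ, 0 < m ∧ g^[m] x = x

lemma rev {X : Type} {g : X → X} (h : Per g) {C : Set X} {k : ℕ} (m : MapsTo g^[k] C C) {x : X}
    (hx : g^[k] x ∈ C) : x ∈ C := by
  obtain ⟨n, n0, e⟩ := h x
  obtain ⟨n, rfl⟩ := Nat.exists_eq_add_one_of_ne_zero n0.ne'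
  have := m.iterate n hx
  rwa [← iterate_succ_apply, ← iterate_mul, mul_comm, iterate_mul, iterate_fixed e] at this

lemma one {X : Type} {g : X → X} (h : Per g) {C : Set X} {r p : ℕ} (pp : p.Prime) (r0 : 0 < r)
    (r1 : r < p) (a : MapsTo g^[r] C C) (b : MapsTo g^[p] C C) : MapsTo g C C := fun x hx => by
  obtain ⟨m, -, e⟩ := Nat.exists_mul_mod_eq_one_of_coprime
    (Nat.coprime_of_lt_prime r0.ne' r1 pp).symm pp.one_lt
  have := a.iterate m hx
  rw [← iterate_mul, ← Nat.div_add_mod (r * m) p, e, iterate_add_apply, iterate_mul] at this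
  exact rev h (k := p * _) (iterate_mul g _ _ ▸ b.iterate _) (iterate_mul g _ _ ▸ this)

def Ob {X : Type} (g : X → X) (D : Set X) : Set X := {x | ∃ k, g^[k] x ∈ D}

lemma ob_eq {X : Type} {g : X → X} (h : Per g) {D : Set X} {p : ℕ} (p0 : 0 < p)
    (m : MapsTo g^[p] D D) : Ob g D = ⋃ k : Fin p, g^[k] ⁻¹' D := by
  refine subset_antisymm (fun x ⟨k, a⟩ => mem_iUnion.2 ⟨⟨k % p, Nat.mod_lt _ p0⟩, ?_⟩)
    (iUnion_subset fun k x a => ⟨k, a⟩)
  rw [← Nat.div_add_mod k p, iterate_add_apply] at a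
  exact rev h (C := D) (iterate_mul g _ _ ▸ m.iterate _) a

lemma ob_maps {X : Type} {g : X → X} (h : Per g) (D : Set X) : MapsTo g (Ob g D) (Ob g D) :=
  fun x ⟨k, a⟩ => by
    obtain ⟨n, n0, e⟩ := h x
    obtain ⟨n, rfl⟩ := Nat.exists_eq_add_one_of_ne_zero n0.ne'
    exact ⟨k + n, by rwa [iterate_add_apply, ← iterate_succ_apply g n, e]⟩

variable {X : Type} [TopologicalSpace X]

def Gd (g : X → X) (E : Set (ℕ → T)) (A : Set X) (φ : X → T) : Prop :=
  IsClosed A ∧ MapsTo g A A ∧ ContinuousOn φ A ∧ ∀ x ∈ A, (fun k => φ (g^[k] x)) ∈ E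

lemma step {g : X → X} (hg : Continuous g) (h : Per g) {q : ℕ} {E : Set (ℕ → T)}
    (hE : ∀ s ∈ E, Periodic s (q+2)) {A D : Set X} {φ : X → T} (G : Gd g E A φ) (hD : IsClosed D)
    (d1 : MapsTo g^[q+2] D D) (d2 : ∀ x ∈ D, ∀ r, 0 < r → r < q+2 → g^[r] x ∉ D)
    (Θ : X → ℕ → T) (t1 : ∀ k, Continuous (Θ · k)) (t3 : ∀ z j, (fun k => Θ z (k + j)) ∈ E)
    (t4 : ∀ z ∈ D, Θ (g^[q+2] z) = Θ z) (t5 : ∀ z ∈ D ∩ A, ∀ k, Θ z k = φ (g^[k] z)) :
    ∃ ψ, Gd g E (A ∪ Ob g D) ψ ∧ EqOn ψ φ A := by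
  classical
  have t2 : ∀ z, Periodic (Θ z) (q+2) := fun z => hE _ (t3 z 0)
  have d3 : ∀ m, MapsTo g^[(q+2)*m] D D := fun m => iterate_mul g _ _ ▸ d1.iterate m
  have t6 : ∀ m, ∀ z ∈ D, Θ (g^[(q+2)*m] z) = Θ z := fun m z hz => by
    induction m with
    | zero => rfl
    | succ m ih => rw [mul_add, mul_one, add_comm, iterate_add_apply, t4 _ (d3 m hz), ih]
  have u : ∀ x k l, k ≤ l → g^[k] x ∈ D → g^[l] x ∈ D →
      Θ (g^[l] x) ((q+1)*l) = Θ (g^[k] x) ((q+1)*k) := fun x k l kl a b => by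
    obtain ⟨l, rfl⟩ := Nat.exists_eq_add_of_le' kl
    have r0 : l % (q+2) = 0 := by
      by_contra r0
      rw [← Nat.div_add_mod l (q+2), iterate_add_apply, iterate_add_apply] at b
      exact d2 _ a _ (Nat.pos_of_ne_zero r0) (Nat.mod_lt _ (by omega)) (rev h (d3 _) b)
    obtain ⟨m, rfl⟩ := Nat.dvd_of_mod_eq_zero r0
    rw [iterate_add_apply, t6 m _ a, show (q+1)*((q+2)*m+k) = (q+1)*k + ((q+1)*m)*(q+2) by ring]
    exact (t2 _).nat_mul _ _
  let ψ : X → T := fun x => if c : ∃ k, g^[k] x ∈ D then Θ (g^[c.choose] x) ((q+1)*c.choose) else φ x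
  have key : ∀ x k, g^[k] x ∈ D → ψ x = Θ (g^[k] x) ((q+1)*k) := fun x k a => by
    have c : ∃ k, g^[k] x ∈ D := ⟨k, a⟩
    simp only [ψ, dif_pos c]
    exact (le_total k c.choose).elim (fun l => u x _ _ l a c.choose_spec)
      fun l => (u x _ _ l c.choose_spec a).symm
  have e : EqOn ψ φ A := fun x hx => by
    by_cases c : ∃ k, g^[k] x ∈ D
    · obtain ⟨k, a⟩ := c
      rw [key x k a, t5 _ ⟨a, G.2.1.iterate k hx⟩, ← iterate_add_apply,
        show (q+1)*k+k = 0 + k*(q+2) by ring]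
      exact (hE _ (G.2.2.2 x hx)).nat_mul k 0
    · simp only [ψ, dif_neg c]
  have cl : ∀ k : Fin (q+2), IsClosed (g^[k] ⁻¹' D) := fun k => hD.preimage (hg.iterate k)
  have oe := ob_eq h (by omega) d1
  have oc : IsClosed (Ob g D) := oe ▸ isClosed_iUnion_of_finite cl
  refine ⟨ψ, ⟨G.1.union oc, G.2.1.union_union (ob_maps h D), (G.2.2.1.congr e).union_of_isClosed
    (oe ▸ (locallyFinite_of_finite _).continuousOn_iUnion cl fun k =>
      ((t1 _).comp (hg.iterate k)).continuousOn.congr fun x hx => key x k hx) G.1 oc, ?_⟩, e⟩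
  rintro x (hx | ⟨k, a⟩)
  · rw [show (fun k => ψ (g^[k] x)) = fun k => φ (g^[k] x) from
      funext fun k => e (G.2.1.iterate k hx)]
    exact G.2.2.2 x hx
  · rw [show (fun k => ψ (g^[k] x)) = fun j => Θ (g^[k] x) (j + (q+1)*k) from funext fun j => ?_]
    · exact t3 _ _
    have w : g^[k + (q+1)*j] (g^[j] x) = g^[(q+2)*j] (g^[k] x) := by
      rw [← iterate_add_apply, ← iterate_add_apply]; congr 1; ring
    rw [key _ (k + (q+1)*j) (w ▸ d3 j a), w, t6 j _ a,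
      show (q+1)*(k+(q+1)*j) = (j + (q+1)*k) + (q*j)*(q+2) by ring]
    exact (t2 _).nat_mul _ _

def HE (X : Type) [TopologicalSpace X] (E : Set (ℕ → T)) : Prop :=
  ∀ (D : Set X) (σ : X → ℕ → T), IsClosed D → (∀ k, ContinuousOn (σ · k) D) → (∀ z ∈ D, σ z ∈ E) →
    ∃ Θ : X → ℕ → T, (∀ k, Continuous (Θ · k)) ∧ (∀ z j, (fun k => Θ z (k + j)) ∈ E) ∧
      ∀ z ∈ D, Θ z = σ z

def Ea (p : ℕ) : Set (ℕ → T) := {s | ∀ k, s (k+1) = s k + ((1 / p : ℝ) : T)}
def Eb (p : ℕ) : Set (ℕ → T) := {s | Periodic s p ∧ ∑ k ∈ Finset.range p, s k = 0}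

lemma ea_eq {p : ℕ} {s : ℕ → T} (h : s ∈ Ea p) (a k : ℕ) : s (a + k) = s a + ((k / p : ℝ) : T) := by
  induction k with
  | zero => simp
  | succ k ih => rw [← add_assoc, h, ih, add_assoc, ← AddCircle.coe_add]; push_cast; rw [add_div]

lemma ea_per (q : ℕ) : ∀ s ∈ Ea (q+2), Periodic s (q+2) := fun s h a => by
  rw [ea_eq h, div_self (by positivity), AddCircle.coe_period, add_zero]

lemma ea_mem (p : ℕ) (t : ℝ) (j : ℕ) : (fun k : ℕ => ((t + (k + j : ℕ) / p : ℝ) : T)) ∈ Ea p :=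
  fun k => by rw [← AddCircle.coe_add]; push_cast; congr 1; ring

lemma he_a (L : Lf X) (p : ℕ) : HE X (Ea p) := fun D σ hD c e => by
  obtain ⟨f, f1, f2⟩ := L D _ hD (c 0)
  refine ⟨fun z k => ((f z + k / p : ℝ) : T), fun k => (AddCircle.continuous_mk' _).comp
    (f1.add continuous_const), fun z j => ea_mem p _ j, fun z hz => funext fun k => ?_⟩
  dsimp only
  rw [AddCircle.coe_add, f2 z hz, ← ea_eq (e z hz), zero_add]

lemma sum_shift {p : ℕ} {s : ℕ → T} (h : Periodic s p) (j : ℕ) :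
    ∑ k ∈ Finset.range p, s (k + j) = ∑ k ∈ Finset.range p, s k := by
  induction j with
  | zero => rfl
  | succ j ih =>
    have a := Finset.sum_range_succ (fun k => s (k + j)) p
    rw [Finset.sum_range_succ', zero_add, add_comm p j, h j, ih] at a
    rw [← add_right_cancel a]
    exact Finset.sum_congr rfl fun k _ => by congr 1; ring

lemma he_b (L : Lf X) (q : ℕ) : HE X (Eb (q+2)) := fun D σ hD c e => by
  choose f f1 f2 using fun k => L D _ hD (c k)
  have fc : ∀ k, Continuous fun z => (f k z : T) := fun k => (AddCircle.continuous_mk' _).comp (f1 k)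
  let Θ : X → ℕ → T := fun z k => if k % (q+2) = 0 then -∑ j ∈ Finset.range (q+1), (f (j+1) z : T)
    else f (k % (q+2)) z
  have p : ∀ z, Periodic (Θ z) (q+2) := fun z k => by simp only [Θ, Nat.add_mod_right]
  refine ⟨Θ, fun k => ?_, fun z j => ⟨fun k => by
    dsimp only; rw [add_right_comm, p z], ?_⟩, fun z hz => funext fun k => ?_⟩
  · simp only [Θ]; split_ifs
    · exact (continuous_finset_sum _ fun j _ => fc _).neg
    · exact fc _
  · rw [sum_shift (p z), Finset.sum_range_succ', Finset.sum_congr rfl (g := fun j => (f (j+1) z : T))]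
    · simp [Θ]
    · intro j hj
      have : (j+1) % (q+2) = j+1 := Nat.mod_eq_of_lt (by have := Finset.mem_range.1 hj; omega)
      simp [Θ, this]
  · rw [← (e z hz).1.map_mod_nat k]
    simp only [Θ, f2 _ z hz]; split_ifs with l
    · have := (e z hz).2
      rw [Finset.sum_range_succ'] at this
      rw [l]; exact neg_eq_of_add_eq_zero_right this
    · rfl

lemma ne0 (q : ℕ) : ((1 / (q + 2 : ℕ) : ℝ) : T) ≠ 0 := fun h => by
  have p : (0:ℝ) < (q + 2 : ℕ) := by positivity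
  rw [AddCircle.coe_eq_zero_iff_of_mem_Ico ⟨by positivity, by
    rw [div_lt_one p]; push_cast; linarith [(Nat.cast_nonneg q : (0:ℝ) ≤ q)]⟩] at h
  exact (one_div_pos.2 p).ne' h

end Pool.Agent.H.MP_8ab655_gt
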