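import Pool.Agent.H.MP_8ab655_gt.B

set_option autoImplicit false
open Set Topology Filter Function
open Pool.Agent.H.MP_3ae40e_gt

namespace Pool.Agent.H.MP_8ab655_gt

variable {X : Type} [TopologicalSpace X] [CompactSpace X] [T2Space X]

lemma ext {g : X → X} (hg : Continuous g) (h : Per g) {q : ℕ} (pp : (q+2).Prime) {E : Set (ℕ → T)}
    (hE : ∀ s ∈ E, Periodic s (q+2)) (he : HE X E) {R A : Set X} {φ : X → T} (hR : IsClosed R)
    (r : ∀ x ∈ R, g^[q+2] x = x ∧ g x ≠ x) (G : Gd g E A φ) :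
    ∃ B ψ, Gd g E B ψ ∧ A ∪ R ⊆ B ∧ EqOn ψ φ A := by
  refine hR.isCompact.induction_on (p := fun S => ∀ A φ, Gd g E A φ →
    ∃ B ψ, Gd g E B ψ ∧ A ∪ S ⊆ B ∧ EqOn ψ φ A) (fun A φ G => ⟨A, φ, G, by simp, fun _ _ => rfl⟩)
    (fun s t l k A φ G => let ⟨B, ψ, a, b, c⟩ := k A φ G
      ⟨B, ψ, a, (union_subset_union_right _ l).trans b, c⟩)
    (fun s t k l A φ G => let ⟨B, ψ, a, b, c⟩ := k A φ G; let ⟨B', ψ', a', b', c'⟩ := l B ψ a
      ⟨B', ψ', a', union_assoc _ _ _ ▸ (union_subset_union_left _ b).trans b',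
        (c'.mono (subset_union_left.trans b)).trans c⟩) (fun y hy => ?_) A φ G
  have n : ∀ k : Fin (q+1), y ≠ g^[k+1] y := fun k e => (r y hy).2
    (one h (C := {y}) pp (Nat.succ_pos k) (by omega) (mapsTo_singleton.2 e.symm)
      (mapsTo_singleton.2 (r y hy).1) rfl)
  choose U V u1 v1 u2 v2 d using fun k => t2_separation (n k)
  obtain ⟨N, n1, n2, n3⟩ := exists_mem_nhds_isClosed_subset
    (iInter_mem.2 fun k : Fin (q+1) => inter_mem ((u1 k).mem_nhds (u2 k))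
      (((v1 k).preimage (hg.iterate (k+1))).mem_nhds (v2 k)))
  refine ⟨R ∩ N, inter_mem_nhdsWithin _ n1, fun A φ G => ?_⟩
  obtain ⟨Θ, t1, t2, t3⟩ := he (R ∩ N ∩ A) (fun z k => φ (g^[k] z)) ((hR.inter n2).inter G.1)
    (fun k => G.2.2.1.comp (hg.iterate k).continuousOn fun z hz => G.2.1.iterate k hz.2)
    fun z hz => G.2.2.2 z hz.2
  obtain ⟨ψ, a, b⟩ := step hg h hE G (hR.inter n2) (fun z hz => by rwa [(r z hz.1).1])
    (fun x hx k k0 k1 l => by
      obtain ⟨k, rfl⟩ := Nat.exists_eq_add_one_of_ne_zero k0.ne'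
      exact disjoint_left.1 (d ⟨k, by omega⟩) (mem_iInter.1 (n3 l.2) _).1
        (mem_iInter.1 (n3 hx.2) ⟨k, by omega⟩).2) Θ t1 t2 (fun z hz => by rw [(r z hz.1).1])
    fun z hz k => congrFun (t3 z hz) k
  exact ⟨_, ψ, a, union_subset_union_right _ fun z hz => ⟨0, hz⟩, b⟩

omit [CompactSpace X] [T2Space X] in
lemma cc_maps {g : X → X} (hg : Continuous g) {Q : Set X} (m : MapsTo g Q Q) {y z : X}
    (hz : z ∈ cc Q y) (a : g z ∈ cc Q y) : MapsTo g (cc Q y) (cc Q y) := fun x hx => by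
  rw [cc, connectedComponentIn_eq a]
  exact (isPreconnected_connectedComponentIn.image g hg.continuousOn).subset_connectedComponentIn
    (mem_image_of_mem g hz) (m.mono_left (connectedComponentIn_subset _ _)).image_subset
    (mem_image_of_mem g hx)

omit [CompactSpace X] [T2Space X] in
lemma cc_sub {Q a b : Set X} (ha : IsClosed a) (hb : IsClosed b) (d : Disjoint a b) (e : a ∪ b = Q)
    {x : X} (hx : x ∈ a) : cc Q x ⊆ a :=
  pre_sub isPreconnected_connectedComponentIn ha hb (e ▸ connectedComponentIn_subset _ _) d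
    (mem_connectedComponentIn (e ▸ Or.inl hx)) hx

lemma dom {g : X → X} (hg : Continuous g) (h : Per g) {q : ℕ} (pp : (q+2).Prime) {Q : Set X}
    (hQ : IsClosed Q) (m : MapsTo g Q Q) (hq : ∀ y ∈ Q, g^[q+2] y ∈ cc Q y)
    (no : ∀ y ∈ Q, g y ∉ cc Q y) : ∃ φ, Gd g (Ea (q+2)) Q φ := by
  refine (fun ⟨B, ψ, a, b, _, c⟩ => ⟨ψ, subset_antisymm b (subset_union_right.trans c) ▸ a⟩ :
    (∃ B ψ, Gd g (Ea (q+2)) B ψ ∧ B ⊆ Q ∧ IsClosed (Q \ B) ∧ ∅ ∪ Q ⊆ B) → _) <|
    hQ.isCompact.induction_on (p := fun S => ∀ A φ, Gd g (Ea (q+2)) A φ →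
    A ⊆ Q → IsClosed (Q \ A) → ∃ B ψ, Gd g (Ea (q+2)) B ψ ∧ B ⊆ Q ∧ IsClosed (Q \ B) ∧ A ∪ S ⊆ B)
    (fun A φ G a b => ⟨A, φ, G, a, b, by simp⟩)
    (fun s t l k A φ G a b => let ⟨B, ψ, a, b, c, d⟩ := k A φ G a b
      ⟨B, ψ, a, b, c, (union_subset_union_right _ l).trans d⟩)
    (fun s t k l A φ G a b => let ⟨B, ψ, a, b, c, d⟩ := k A φ G a b
      let ⟨B', ψ', a', b', c', d'⟩ := l B ψ a b c
      ⟨B', ψ', a', b', c', union_assoc _ _ _ ▸ (union_subset_union_left _ d).trans d'⟩)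
    (fun y hy => ?_) ∅ 0 ⟨isClosed_empty, mapsTo_empty _ _, continuousOn_empty _,
      fun _ l => l.elim⟩ (empty_subset _) (by simpa using hQ)
  have y0 := mem_connectedComponentIn hy
  have n : ∀ k : Fin (q+1), ∀ p ∈ Q ∩ {y}, Disjoint (cc Q p) {g^[k+1] y} := fun k p hp => by
    rw [show p = y from hp.2, disjoint_singleton_right]
    exact fun e => no y hy (one h pp (Nat.succ_pos k) (by omega)
      (cc_maps (hg.iterate _) (m.iterate _) y0 e) (cc_maps (hg.iterate _) (m.iterate _) y0 (hq y hy)) y0)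
  choose a b a1 b1 d e a2 b2 using fun k => wire hQ isClosed_singleton isClosed_singleton (n k)
  let D := Q ∩ ⋂ k : Fin (q+1), a k ∩ g^[k+1] ⁻¹' b k
  have D1 : IsClosed D := hQ.inter
    (isClosed_iInter fun k => (a1 k).inter ((b1 k).preimage (hg.iterate _)))
  have D2 : IsClosed (Q \ D) := by
    rw [show Q \ D = Q ∩ ⋃ k : Fin (q+1), b k ∪ g^[k+1] ⁻¹' a k from ?_]
    · exact hQ.inter (isClosed_iUnion_of_finite fun k => (b1 k).union ((a1 k).preimage (hg.iterate _)))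
    refine subset_antisymm (fun x hx => ?_) fun x hx => ?_
    · refine ⟨hx.1, by_contra fun k => ?_⟩
      simp only [mem_iUnion, not_exists, mem_union, not_or] at k
      exact hx.2 ⟨hx.1, mem_iInter.2 fun j => ⟨((e j).symm.subset hx.1).resolve_right (k j).1,
        ((e j).symm.subset (m.iterate _ hx.1)).resolve_left (k j).2⟩⟩
    · refine ⟨hx.1, fun l => ?_⟩
      obtain ⟨j, k⟩ := mem_iUnion.1 hx.2
      have := mem_iInter.1 l.2 j
      exact k.elim (disjoint_left.1 (d j) this.1) (disjoint_left.1 (d j) · this.2)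
  have yD : y ∈ D := ⟨hy, mem_iInter.2 fun j => ⟨((e j).symm.subset hy).resolve_right
    (disjoint_left.1 (b2 j) · rfl), ((e j).symm.subset (m.iterate _ hy)).resolve_left
    (disjoint_left.1 (a2 j) · rfl)⟩⟩
  refine ⟨D, mem_nhdsWithin.2 ⟨_, D2.isOpen_compl, fun l => l.2 yD,
    fun x l => by_contra fun k => l.1 ⟨l.2, k⟩⟩, fun A φ G sA cA => ?_⟩
  have D3 : IsClosed (D \ A) := by
    rw [show D \ A = D ∩ (Q \ A) from subset_antisymm (fun x l => ⟨l.1, l.1.1, l.2⟩)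
      fun x l => ⟨l.1, l.2.2⟩]
    exact D1.inter cA
  obtain ⟨ψ, p1, p2⟩ := step hg h (ea_per q) G D3 (fun z hz => ⟨cc_sub D1 D2 disjoint_sdiff_right
    (union_diff_cancel inter_subset_left) hz.1 (hq z hz.1.1), fun l => hz.2
      (rev h (G.2.1.iterate _) l)⟩) (fun x hx k k0 k1 l => by
      obtain ⟨k, rfl⟩ := Nat.exists_eq_add_one_of_ne_zero k0.ne'
      exact disjoint_left.1 (d ⟨k, by omega⟩) (mem_iInter.1 l.1.2 _).1
        (mem_iInter.1 hx.1.2 ⟨k, by omega⟩).2) (fun _ k => ((0 + k / (q+2 : ℕ) : ℝ) : T))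
      (fun _ => continuous_const) (fun _ j => ea_mem _ 0 j) (fun _ _ => rfl)
      fun z hz => (hz.1.2 hz.2).elim
  refine ⟨_, ψ, p1, union_subset sA fun x ⟨k, l⟩ => rev h (m.iterate k) l.1.1, ?_,
    union_subset subset_union_left fun x l => (em (x ∈ A)).imp_right fun k => ⟨0, l, k⟩⟩
  rw [show Q \ (A ∪ Ob g (D \ A)) = (Q \ A) ∩ ⋂ k, g^[k] ⁻¹' ((Q \ D) ∪ A) from ?_]
  · exact cA.inter (isClosed_iInter fun k => (D2.union G.1).preimage (hg.iterate k))
  refine subset_antisymm (fun x hx => ⟨⟨hx.1, fun l => hx.2 (Or.inl l)⟩, mem_iInter.2 fun k =>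
    by_contra fun l => hx.2 (Or.inr ⟨k, by_contra fun w => l (Or.inl ⟨m.iterate k hx.1, w⟩),
      fun w => l (Or.inr w)⟩)⟩) fun x hx => ⟨hx.1.1, fun l => l.elim hx.1.2 fun ⟨k, w⟩ =>
      (mem_iInter.1 hx.2 k).elim (fun v => v.2 w.1) w.2⟩

lemma noA (L : Lf X) {g : X → X} (hg : Continuous g) (h : Per g) {q : ℕ} (pp : (q+2).Prime)
    {K Q R : Set X} (hK : IsConnected K) (mK : MapsTo g K K) (s : K ⊆ Q ∪ R) (hR : IsClosed R)
    (r : ∀ x ∈ R, g^[q+2] x = x ∧ g x ≠ x) (hQ : IsClosed Q) (m : MapsTo g Q Q)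
    (hq : ∀ y ∈ Q, g^[q+2] y ∈ cc Q y) : ∃ y ∈ Q, g y ∈ cc Q y := by
  by_contra no
  push Not at no
  obtain ⟨φ, G⟩ := dom hg h pp hQ m hq no
  obtain ⟨B, ψ, a, b, -⟩ := ext hg h pp (ea_per q) (he_a L _) hR r G
  obtain ⟨f, f1, f2⟩ := L B ψ a.1 a.2.2.1
  have w : ∀ x ∈ K, ((f (g x) - f x : ℝ) : T) = ((1 / (q+2 : ℕ) : ℝ) : T) := fun x hx => by
    rw [AddCircle.coe_sub, f2 _ (b (s hx)), f2 _ (b (s (mK hx)))]
    exact sub_eq_of_eq_add' (a.2.2.2 x (b (s hx)) 0)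
  obtain ⟨x, hx⟩ := hK.1
  have i : ∀ j : ℕ, f (g^[j] x) = f x + j * (f (g x) - f x) := fun j => by
    induction j with
    | zero => simp
    | succ j ih =>
      have := cst hK.2 (F := fun x => f (g x) - f x) ((f1.comp hg).sub f1) w (mK.iterate j hx) hx
      rw [iterate_succ_apply']; push_cast; linarith
  obtain ⟨n, n0, e⟩ := h x
  have := i n
  rw [e, left_eq_add, mul_eq_zero] at this
  exact ne0 q (by rw [← w x hx, this.resolve_left (by positivity)]; rfl)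

lemma noB (L : Lf X) {g : X → X} (hg : Continuous g) (h : Per g) {q : ℕ} (pp : (q+2).Prime)
    {K Q R : Set X} (hK : IsConnected K) (sQ : Q ⊆ K) (s : K ⊆ Q ∪ R) (hR : IsClosed R)
    (r : ∀ x ∈ R, g^[q+2] x = x ∧ g x ≠ x) (hQ : IsClosed Q) (m : MapsTo g Q Q)
    (hq : ∀ y ∈ Q, g^[q+2] y ∈ cc Q y) {y z : X} (hy : y ∈ Q) (hz : z ∈ Q)
    (y1 : MapsTo g (cc Q y) (cc Q y)) (z1 : MapsTo g (cc Q z) (cc Q z)) : z ∈ cc Q y := by
  classical
  by_contra no
  obtain ⟨a, b, a1, b1, d, e, a2, b2⟩ := wire hQ isClosed_singleton isClosed_singleton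
    (fun p (hp : p ∈ Q ∩ {y}) => (show p = y from hp.2) ▸ disjoint_singleton_right.2 no)
  have ya := cc_sub a1 b1 d e ((e.symm.subset hy).resolve_right (disjoint_left.1 b2 · rfl))
  have zb := cc_sub b1 a1 d.symm (union_comm _ _ ▸ e)
    ((e.symm.subset hz).resolve_left (disjoint_left.1 a2 · rfl))
  have oc : IsClosed (Ob g b) := ob_eq h (by omega : 0 < q+2) (fun x hx => cc_sub b1 a1 d.symm
    (union_comm _ _ ▸ e) hx (hq x (e ▸ Or.inr hx))) ▸ isClosed_iUnion_of_finite fun k =>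
    b1.preimage (hg.iterate k)
  let φ : X → T := fun x => if x ∈ Ob g b then 0 else ((1 / (q+2 : ℕ) : ℝ) : T)
  have G : Gd g (Eb (q+2)) Q φ := by
    refine ⟨hQ, m, ContinuousOn.mono (s := Ob g b ∪ (Q ∩ ⋂ k, g^[k] ⁻¹' a))
      (ContinuousOn.union_of_isClosed (continuousOn_const.congr fun x l => if_pos l)
        (continuousOn_const.congr fun x l => if_neg fun ⟨k, w⟩ =>
          disjoint_left.1 d (mem_iInter.1 l.2 k) w) oc
        (hQ.inter (isClosed_iInter fun k => a1.preimage (hg.iterate k))))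
      (fun x hx => (em _).imp_right fun l => ⟨hx, mem_iInter.2 fun k =>
        (e.symm.subset (m.iterate k hx)).resolve_right fun w => l ⟨k, w⟩⟩), fun x hx => ?_⟩
    by_cases l : x ∈ Ob g b
    · rw [show (fun k => φ (g^[k] x)) = fun _ => 0 from
        funext fun k => if_pos ((ob_maps h b).iterate k l)]
      exact ⟨fun _ => rfl, by simp⟩
    · rw [show (fun k => φ (g^[k] x)) = fun _ => ((1 / (q+2 : ℕ) : ℝ) : T) from
        funext fun k => if_neg fun w => l (rev h ((ob_maps h b).iterate k) w)]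
      refine ⟨fun _ => rfl, ?_⟩
      rw [Finset.sum_const, Finset.card_range, ← AddCircle.coe_nsmul, nsmul_eq_mul,
        mul_one_div_cancel (by positivity), AddCircle.coe_period]
  obtain ⟨B, ψ, c, sB, k⟩ := ext hg h pp (fun s l => l.1) (he_b L _) hR r G
  obtain ⟨f, f1, f2⟩ := L B ψ c.1 c.2.2.1
  have w := cst hK.2 (F := fun x => ∑ k ∈ Finset.range (q+2), f (g^[k] x)) (t := 0)
    (continuous_finsetSum _ fun k _ => f1.comp (hg.iterate k)) (fun x hx => by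
      rw [← (c.2.2.2 x (sB (s hx))).2]
      exact (map_sum (QuotientAddGroup.mk' (AddSubgroup.zmultiples (1:ℝ))) _ _).trans
        (Finset.sum_congr rfl fun k _ => f2 _ (c.2.1.iterate k (sB (s hx))))) (sQ hy) (sQ hz)
  have fy : ∀ x ∈ cc Q y, (f x : T) = ((1 / (q+2 : ℕ) : ℝ) : T) := fun x hx => by
    have := connectedComponentIn_subset _ _ hx
    rw [f2 x (sB (Or.inl this)), k this]
    exact if_neg fun ⟨j, l⟩ => disjoint_left.1 d (ya (y1.iterate j hx)) l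
  have fz : ∀ x ∈ cc Q z, (f x : T) = 0 := fun x hx => by
    have := connectedComponentIn_subset _ _ hx
    rw [f2 x (sB (Or.inl this)), k this]
    exact if_pos ⟨0, zb hx⟩
  have y0 := mem_connectedComponentIn hy
  have z0 := mem_connectedComponentIn hz
  simp only [fun k => cst isPreconnected_connectedComponentIn f1 fy (y1.iterate k y0) y0,
    fun k => cst isPreconnected_connectedComponentIn f1 fz (z1.iterate k z0) z0,
    Finset.sum_const, Finset.card_range, nsmul_eq_mul] at w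
  exact ne0 q (by rw [← fy y y0, mul_left_cancel₀ (by positivity) w, fz z z0])

end Pool.Agent.H.MP_8ab655_gt
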