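import Pool.Agent.H.MP_8ab655_gt.C

set_option autoImplicit false
open Set Topology Filter Function
open Pool.Agent.H.MP_3ae40e_gt

namespace Pool.Agent.H.MP_8ab655_gt

variable {X : Type} [TopologicalSpace X] [CompactSpace X] [T2Space X]

lemma chain {c : Set (Set X)} (c1 : ∀ A ∈ c, Ct A) (c2 : IsChain (· ⊆ ·) c) (c3 : c.Nonempty) :
    Ct (⋂ A : c, A.1) := by
  have := c3.to_subtype
  have d : Directed (· ⊇ ·) fun A : c => A.1 := fun A B =>
    (c2.total A.2 B.2).elim (fun l => ⟨A, subset_rfl, l⟩) fun l => ⟨B, l, subset_rfl⟩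
  have cl : ∀ A : c, IsClosed A.1 := fun A => (c1 _ A.2).1
  have hc := isClosed_iInter cl
  refine ⟨hc, IsCompact.nonempty_iInter_of_directed_nonempty_isCompact_isClosed _ d
    (fun A => (c1 _ A.2).2.1) (fun A => (cl A).isCompact) cl, isPreconnected_closed_iff.2
    fun a b ha hb h4 ⟨x, x1, x2⟩ ⟨y, y1, y2⟩ => ?_⟩
  by_contra k
  obtain ⟨u, v, hu, hv, u1, v1, huv⟩ := normal_separation (hc.inter ha) (hc.inter hb)
    (disjoint_left.2 fun z z1 z2 => k ⟨z, z1.1, z1.2, z2.2⟩)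
  obtain ⟨n, hn⟩ := exists_subset_nhds_of_compactSpace (U := u ∪ v) d cl
    fun z hz => (hu.union hv).mem_nhds ((h4 hz).imp (fun l => u1 ⟨hz, l⟩) fun l => v1 ⟨hz, l⟩)
  obtain ⟨z, -, z1, z2⟩ := (c1 _ n.2).2.2 u v hu hv hn ⟨x, mem_iInter.1 x1 n, u1 ⟨x1, x2⟩⟩
    ⟨y, mem_iInter.1 y1 n, v1 ⟨y1, y2⟩⟩
  exact disjoint_left.1 huv z1 z2

theorem fix [ConnectedSpace X] (L : Lf X) {h : X → X} (hc : Continuous h) (inj : Injective h)
    (per : Per h) : ∃ x, h x = x := by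
  classical
  by_contra nf
  push Not at nf
  obtain ⟨K, -, ⟨hK, mK⟩, mn⟩ := zorn_superset_nonempty {K | Ct K ∧ MapsTo h K K}
    (fun c c1 c2 c3 => ⟨_, ⟨chain (fun A l => (c1 l).1) c2 c3, fun x l => mem_iInter.2 fun A =>
      (c1 A.2).2 (mem_iInter.1 l A)⟩, fun A hA => iInter_subset (fun A : c => A.1) ⟨A, hA⟩⟩)
    univ ⟨⟨isClosed_univ, isConnected_univ⟩, mapsTo_univ _ _⟩
  have ex : ∃ n, 0 < n ∧ ∃ U, IsOpen U ∧ (U ∩ K).Nonempty ∧ ∀ x ∈ U ∩ K, h^[n] x = x := by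
    have : CompactSpace K := isCompact_iff_compactSpace.1 hK.1.isCompact
    have := hK.2.1.to_subtype
    obtain ⟨n, x, hx⟩ := nonempty_interior_of_iUnion_of_closed
      (f := fun n : ℕ => {x : K | h^[n+1] x = x})
      (fun n => isClosed_eq ((hc.iterate _).comp continuous_subtype_val) continuous_subtype_val)
      (eq_univ_of_forall fun x => by
        obtain ⟨n, n0, e⟩ := per x
        obtain ⟨n, rfl⟩ := Nat.exists_eq_add_one_of_ne_zero n0.ne'
        exact mem_iUnion.2 ⟨n, e⟩)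
    obtain ⟨U, u1, u2⟩ := isOpen_induced_iff.1 (isOpen_interior (s := {x : K | h^[n+1] x = x}))
    exact ⟨n+1, n.succ_pos, U, u1, ⟨x, u2.symm.subset hx, x.2⟩, fun z hz =>
      interior_subset (s := {x : K | h^[n+1] x = x})
        (u2.subset (show (⟨z, hz.2⟩ : K) ∈ _ from hz.1))⟩
  obtain ⟨n0, U, u1, u2, u3⟩ := Nat.find_spec ex
  have mi := fun t => Nat.find_min ex (m := t)
  generalize Nat.find ex = n at n0 u3 mi
  have n1 : n ≠ 1 := fun e => let ⟨x, l⟩ := u2; nf x (by simpa [e] using u3 x l)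
  have pp := Nat.minFac_prime n1
  obtain ⟨t, ht⟩ := Nat.minFac_dvd n
  obtain ⟨q, hq⟩ := Nat.exists_eq_add_of_le' pp.two_le
  rw [hq] at pp ht
  have t0 : 0 < t := Nat.pos_of_ne_zero fun e => by simp [e] at ht; omega
  obtain ⟨y, y1, y2⟩ : ∃ y ∈ U ∩ K, h^[t] y ≠ y := by
    by_contra k
    push Not at k
    exact mi t (by rw [ht, add_mul]; omega) ⟨t0, U, u1, u2, k⟩
  obtain ⟨N, a1, a2, a3⟩ := exists_mem_nhds_isClosed_subset (inter_mem (u1.mem_nhds y1.1)
    ((isOpen_ne_fun (hc.iterate t) continuous_id).mem_nhds y2))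
  have gp : (h^[t])^[q+2] = h^[n] := by rw [← iterate_mul, ht, mul_comm]
  have pg : Per h^[t] := fun x => let ⟨m, m0, e⟩ := per x
    ⟨m, m0, by rw [← iterate_mul, mul_comm, iterate_mul, iterate_fixed e]⟩
  have hR : IsClosed (Ob h (K ∩ N)) := ob_eq per n0 (fun x (l : x ∈ K ∩ N) => by
    rwa [u3 x ⟨(a3 l.2).1, l.1⟩]) ▸ isClosed_iUnion_of_finite fun k =>
      (hK.1.inter a2).preimage (hc.iterate k)
  have r : ∀ x ∈ Ob h (K ∩ N), h^[n] x = x ∧ h^[t] x ≠ x := fun x ⟨k, l⟩ =>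
    ⟨inj.iterate k (by
      rw [← iterate_add_apply, add_comm, iterate_add_apply, u3 _ ⟨(a3 l.2).1, l.1⟩]),
      fun e => (a3 l.2).2 (by rw [id, ← iterate_add_apply, add_comm, iterate_add_apply, e])⟩
  let M := ⋂ j : Fin n, h^[j] ⁻¹' (interior N)ᶜ
  have hM : IsClosed M := isClosed_iInter fun j =>
    isOpen_interior.isClosed_compl.preimage (hc.iterate j)
  have qe : ∀ x ∈ K, x ∈ M ↔ x ∉ Ob h (K ∩ interior N) := fun x hx => by
    rw [ob_eq per n0 (fun x (l : x ∈ K ∩ interior N) => by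
      rwa [u3 x ⟨(a3 (interior_subset l.2)).1, l.1⟩])]
    simp only [M, mem_iInter, mem_iUnion, not_exists, mem_preimage, mem_compl_iff, mem_inter_iff,
      mK.iterate _ hx, true_and]
  have mQ : MapsTo h (K ∩ M) (K ∩ M) := fun x hx => ⟨mK hx.1, (qe _ (mK hx.1)).2
    fun ⟨k, l⟩ => (qe _ hx.1).1 hx.2 ⟨k+1, l⟩⟩
  have yQ : ¬ K ⊆ K ∩ M := fun l =>
    (qe y y1.2).1 (l y1.2).2 ⟨0, y1.2, mem_interior_iff_mem_nhds.2 a1⟩
  have s : K ⊆ K ∩ M ∪ Ob h (K ∩ N) := fun x hx => (em (x ∈ M)).imp (⟨hx, ·⟩) fun l => by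
    rw [qe x hx, not_not] at l
    exact l.imp fun k l => ⟨l.1, interior_subset l.2⟩
  have hq : ∀ z ∈ K ∩ M, (h^[t])^[q+2] z ∈ cc (K ∩ M) z := fun z hz => by
    rw [gp]
    by_contra k
    refine yQ ((bump hK hM hz fun w hw => mem_interior_iff_mem_nhds.2 (iInter_mem.2 fun j =>
      mem_of_superset ((a2.preimage (hc.iterate j)).isOpen_compl.mem_nhds fun l => k ?_)
        fun v l m => l (interior_subset (s := N) m))).trans (connectedComponentIn_subset _ _))
    exact cc_maps (hc.iterate n) (mQ.iterate n) hw (by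
      rwa [(r w ⟨j, mK.iterate j (connectedComponentIn_subset _ _ hw).1, l⟩).1])
      (mem_connectedComponentIn hz)
  obtain ⟨z, z1, z2⟩ := noA L (hc.iterate t) pg pp hK.2 (mK.iterate t) s hR (gp ▸ r)
    (hK.1.inter hM) (mQ.iterate t) hq
  have z0 := mem_connectedComponentIn z1
  have := noB L (hc.iterate t) pg pp hK.2 inter_subset_left s hR (gp ▸ r)
    (hK.1.inter hM) (mQ.iterate t) hq z1 (mQ z1) (cc_maps (hc.iterate t) (mQ.iterate t) z0 z2)
    (cc_maps (hc.iterate t) (mQ.iterate t) (mem_connectedComponentIn (mQ z1)) (by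
      rw [← iterate_succ_apply, iterate_succ_apply']
      exact (isPreconnected_connectedComponentIn.image h hc.continuousOn).subset_connectedComponentIn
        (mem_image_of_mem h z0) (mQ.mono_left (connectedComponentIn_subset _ _)).image_subset
        (mem_image_of_mem h z2)))
  exact yQ ((mn ⟨cc_ct (hK.1.inter hM) z1, cc_maps hc mQ z0 this⟩
    ((connectedComponentIn_subset _ _).trans inter_subset_left)).trans
    (connectedComponentIn_subset _ _))

end Pool.Agent.H.MP_8ab655_gt
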